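import Pool.Agent.Work.MP_a21be6_nt.Defs

set_option autoImplicit false

/-! # The prime-sum matrix: weak alternation of the spectrum -/

namespace PrimeSum

open Polynomial Matrix

/-- a nonzero vector orthogonal to few vectors -/
lemma exists_orth {n : ℕ} (hn : 0 < n) (w : Fin (n - 1) → EuclideanSpace ℝ (Fin n)) :
    ∃ x : EuclideanSpace ℝ (Fin n), x ≠ 0 ∧ ∀ i, inner ℝ (w i) x = 0 := by
  let L : EuclideanSpace ℝ (Fin n) →ₗ[ℝ] (Fin (n - 1) → ℝ) :=
    LinearMap.pi fun i => (innerₛₗ ℝ (w i))
  have h : LinearMap.ker L ≠ ⊥ := by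
    apply LinearMap.ker_ne_bot_of_finrank_lt
    rw [Module.finrank_fin_fun, finrank_euclideanSpace_fin]
    omega
  obtain ⟨x, hx, hx0⟩ := (Submodule.ne_bot_iff _).1 h
  refine ⟨x, hx0, fun i => ?_⟩
  have := congrFun (LinearMap.mem_ker.1 hx) i
  simpa [L] using this

section

variable {n : ℕ} (b : OrthonormalBasis (Fin n) ℝ (EuclideanSpace ℝ (Fin n))) (m : Fin n → ℝ)

lemma norm_sq_eq (x : EuclideanSpace ℝ (Fin n)) : ∑ i, (inner ℝ (b i) x) ^ 2 = ‖x‖ ^ 2 := by
  rw [← real_inner_self_eq_norm_sq, ← b.sum_inner_mul_inner x x]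
  exact Finset.sum_congr rfl fun i _ => by rw [real_inner_comm, sq]

lemma up (hm : Antitone m) {x : EuclideanSpace ℝ (Fin n)} {k : Fin n}
    (h : ∀ i, i < k → inner ℝ (b i) x = 0) : ∑ i, m i * (inner ℝ (b i) x) ^ 2 ≤ m k * ‖x‖ ^ 2 := by
  rw [← norm_sq_eq b, Finset.mul_sum]
  refine Finset.sum_le_sum fun i _ => ?_
  by_cases hi : i < k
  · rw [h i hi]; simp
  · exact mul_le_mul_of_nonneg_right (hm (not_lt.1 hi)) (sq_nonneg _)

lemma low (hm : Antitone m) {x : EuclideanSpace ℝ (Fin n)} {k : Fin n}
    (h : ∀ i, k < i → inner ℝ (b i) x = 0) : m k * ‖x‖ ^ 2 ≤ ∑ i, m i * (inner ℝ (b i) x) ^ 2 := by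
  rw [← norm_sq_eq b, Finset.mul_sum]
  refine Finset.sum_le_sum fun i _ => ?_
  by_cases hi : k < i
  · rw [h i hi]; simp
  · exact mul_le_mul_of_nonneg_right (hm (not_lt.1 hi)) (sq_nonneg _)

/-- the two families of inequalities -/
lemma weak (hn : 0 < n) (hm : Antitone m)
    (S : EuclideanSpace ℝ (Fin n) → EuclideanSpace ℝ (Fin n))
    (hS : ∀ x y, inner ℝ (S y) x = inner ℝ y (S x)) (hSn : ∀ x, ‖S x‖ = ‖x‖)
    (e : EuclideanSpace ℝ (Fin n))
    (hQ : ∀ x, ∑ i, m i * (inner ℝ (b i) (S x)) ^ 2 + ∑ i, m i * (inner ℝ (b i) x) ^ 2 =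
      2 * (inner ℝ e x) ^ 2) :
    (∀ j k : Fin n, j.val + k.val + 1 = n → 0 ≤ m j + m k) ∧
    (∀ j k : Fin n, j.val + k.val = n → m j + m k ≤ 0) := by
  constructor
  · intro j k hjk
    obtain ⟨x, hx0, hx⟩ := exists_orth hn fun i => if h : i.val < j.val then
      b ⟨i.val, by omega⟩ else S (b ⟨i.val - j.val, by omega⟩)
    have h1 := up b m hm (x := x) (k := j) fun i hi => by
      have := hx ⟨i.val, by have := i.2; have : i.val < j.val := hi; omega⟩
      rw [dif_pos (show i.val < j.val from hi)] at this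
      exact this
    have h2 := up b m hm (x := S x) (k := k) fun i hi => by
      have hik : i.val < k.val := hi
      have := hx ⟨i.val + j.val, by omega⟩
      rw [dif_neg (by simp)] at this
      rw [← hS]
      simpa using this
    rw [hSn] at h2
    have h3 := hQ x
    have h4 : 0 < ‖x‖ ^ 2 := by positivity
    have h5 : 0 ≤ (m j + m k) * ‖x‖ ^ 2 := by nlinarith [sq_nonneg (inner ℝ e x)]
    exact nonneg_of_mul_nonneg_left h5 h4
  · intro j k hjk
    have hj := j.2
    have hk := k.2
    obtain ⟨x, hx0, hx⟩ := exists_orth hn fun i => if h1 : i.val < n - 1 - j.val then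
      b ⟨j.val + 1 + i.val, by omega⟩ else if h2 : i.val < n - 2 then
        S (b ⟨k.val + 1 + (i.val - (n - 1 - j.val)), by omega⟩) else e
    have h1 := low b m hm (x := x) (k := j) fun i hi => by
      have hij : j.val < i.val := hi
      have := hx ⟨i.val - j.val - 1, by omega⟩
      rw [dif_pos (show i.val - j.val - 1 < n - 1 - j.val by omega)] at this
      have e1 : (⟨j.val + 1 + (i.val - j.val - 1), by omega⟩ : Fin n) = i := by
        ext
        simp only
        omega
      rwa [e1] at this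
    have h2 := low b m hm (x := S x) (k := k) fun i hi => by
      have hij : k.val < i.val := hi
      have := hx ⟨(i.val - k.val - 1) + (n - 1 - j.val), by omega⟩
      rw [dif_neg (show ¬ (i.val - k.val - 1) + (n - 1 - j.val) < n - 1 - j.val by omega),
        dif_pos (show (i.val - k.val - 1) + (n - 1 - j.val) < n - 2 by omega)] at this
      have e1 : (⟨k.val + 1 + ((i.val - k.val - 1) + (n - 1 - j.val) - (n - 1 - j.val)),
          by omega⟩ : Fin n) = i := by
        ext
        simp only
        omega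
      rw [e1] at this
      rw [← hS]
      exact this
    have h0 : inner ℝ e x = 0 := by
      have := hx ⟨n - 2, by omega⟩
      rwa [dif_neg (show ¬ n - 2 < n - 1 - j.val by omega), dif_neg (lt_irrefl _)] at this
    rw [hSn] at h2
    have h3 := hQ x
    rw [h0] at h3
    have h4 : 0 < ‖x‖ ^ 2 := by positivity
    have h5 : (m j + m k) * ‖x‖ ^ 2 ≤ 0 := by nlinarith
    exact nonpos_of_mul_nonpos_left h5 h4

end

/-- the real matrix -/
noncomputable def A (n : ℕ) : Matrix (Fin n) (Fin n) ℝ := (M n).map (algebraMap ℚ ℝ)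

lemma A_apply {n : ℕ} (i j : Fin n) :
    A n i j = if ((i.val + 1) + (j.val + 1)).Prime then 1 else 0 := by
  simp only [A, M, Matrix.map_apply, Matrix.of_apply]
  split_ifs <;> simp

lemma A_herm (n : ℕ) : (A n).IsHermitian := by
  ext i j
  rw [Matrix.conjTranspose_apply, A_apply, A_apply, add_comm (j.val + 1)]
  simp

lemma A_charpoly (n : ℕ) : (A n).charpoly = (chi n).map (algebraMap ℚ ℝ) := by
  rw [A, chi, Matrix.charpoly_map]

/-- the entries -/
lemma A_sign {n : ℕ} (i j : Fin n) : ((-1 : ℝ) ^ i.val * (-1) ^ j.val) * A n i j + A n i j =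
    if i.val = 0 ∧ j.val = 0 then 2 else 0 := by
  rw [A_apply]
  by_cases h0 : i.val = 0 ∧ j.val = 0
  · rw [if_pos h0, h0.1, h0.2]
    norm_num
  · rw [if_neg h0]
    rw [← pow_add]
    rcases Nat.even_or_odd (i.val + j.val) with h | h
    · rw [if_neg]
      · simp
      · intro hp
        have h2 : (i.val + 1 + (j.val + 1)) = 2 := by
          refine (hp.even_iff).1 ?_
          rw [show i.val + 1 + (j.val + 1) = i.val + j.val + 2 by ring]
          exact h.add (by decide)
        omega
    · rw [h.neg_one_pow]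
      ring

/-- the sorted spectral decomposition -/
lemma spectral (n : ℕ) : ∃ (b : OrthonormalBasis (Fin n) ℝ (EuclideanSpace ℝ (Fin n)))
    (m : Fin n → ℝ), Antitone m ∧ IsSpectrum n m ∧
    ∀ x : EuclideanSpace ℝ (Fin n), ∑ i, m i * (inner ℝ (b i) x) ^ 2 =
      ∑ i, ∑ j, x i * A n i j * x j := by
  have hA := A_herm n
  set σ := Tuple.sort (fun i => - hA.eigenvalues i) with hσ
  refine ⟨hA.eigenvectorBasis.reindex σ.symm, fun i => hA.eigenvalues (σ i), ?_, ?_, ?_⟩
  · intro i j hij
    have := Tuple.monotone_sort (fun i => - hA.eigenvalues i) hij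
    simp only [Function.comp_apply] at this
    show hA.eigenvalues (σ j) ≤ hA.eigenvalues (σ i)
    linarith
  · rw [IsSpectrum, ← A_charpoly, hA.charpoly_eq]
    exact (Equiv.prod_comp σ fun i => X - C (hA.eigenvalues i)).symm
  · intro x
    simp only [OrthonormalBasis.reindex_apply, Equiv.symm_symm]
    rw [Equiv.sum_comp σ fun i => hA.eigenvalues i * (inner ℝ (hA.eigenvectorBasis i) x) ^ 2]
    have hT := Matrix.isSymmetric_toEuclideanLin_iff.mpr hA
    have h1 : ∀ i, inner ℝ (hA.eigenvectorBasis i) (Matrix.toEuclideanLin (A n) x) =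
        hA.eigenvalues i * inner ℝ (hA.eigenvectorBasis i) x := by
      intro i
      rw [← hT]
      have h2 : Matrix.toEuclideanLin (A n) (hA.eigenvectorBasis i) =
          hA.eigenvalues i • hA.eigenvectorBasis i := by
        ext k
        have := congrFun (hA.mulVec_eigenvectorBasis i) k
        simpa [Matrix.toLpLin_apply] using this
      rw [h2, real_inner_smul_left]
    have h3 := hA.eigenvectorBasis.sum_inner_mul_inner x (Matrix.toEuclideanLin (A n) x)
    have h4 : inner ℝ x (Matrix.toEuclideanLin (A n) x) = ∑ i, ∑ j, x i * A n i j * x j := by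
      simp only [PiLp.inner_apply, Matrix.toLpLin_apply, Matrix.mulVec, dotProduct]
      refine Finset.sum_congr rfl fun i _ => ?_
      rw [RCLike.inner_apply, conj_trivial, Finset.sum_mul]
      exact Finset.sum_congr rfl fun j _ => by ring
    rw [← h4, ← h3]
    refine Finset.sum_congr rfl fun i _ => ?_
    rw [h1, real_inner_comm x]
    ring

/-- the weak alternation for sorted eigenvalues -/
lemma sorted_weak {n : ℕ} (hn : 0 < n) : ∃ m : Fin n → ℝ, IsSpectrum n m ∧
    (∀ j k : Fin n, j.val + k.val + 1 = n → 0 ≤ m j + m k) ∧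
    (∀ j k : Fin n, j.val + k.val = n → m j + m k ≤ 0) := by
  obtain ⟨b, m, hm, hs, hq⟩ := spectral n
  refine ⟨m, hs, ?_⟩
  set S : EuclideanSpace ℝ (Fin n) → EuclideanSpace ℝ (Fin n) := fun x =>
    WithLp.toLp 2 (fun i => (-1) ^ i.val * x i) with hS
  refine weak b m hn hm S (fun x y => ?_) (fun x => ?_) (EuclideanSpace.single ⟨0, hn⟩ 1)
    fun x => ?_
  · simp only [hS, PiLp.inner_apply, RCLike.inner_apply, conj_trivial]
    exact Finset.sum_congr rfl fun i _ => by ring
  · rw [EuclideanSpace.norm_eq, EuclideanSpace.norm_eq]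
    simp [hS]
  · rw [hq, hq, ← Finset.sum_add_distrib]
    have h1 : ∀ i, ∑ j, S x i * A n i j * S x j + ∑ j, x i * A n i j * x j =
        if i.val = 0 then 2 * (x ⟨0, hn⟩) ^ 2 else 0 := by
      intro i
      rw [← Finset.sum_add_distrib]
      have h2 : ∀ j, S x i * A n i j * S x j + x i * A n i j * x j =
          if i.val = 0 ∧ j.val = 0 then 2 * (x ⟨0, hn⟩) ^ 2 else 0 := by
        intro j
        have h3 := A_sign i j
        have h4 : S x i * A n i j * S x j + x i * A n i j * x j = x i * x j *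
            (((-1 : ℝ) ^ i.val * (-1) ^ j.val) * A n i j + A n i j) := by
          simp only [hS]
          ring
        rw [h4, h3]
        split_ifs with h
        · have e1 : i = ⟨0, hn⟩ := Fin.ext h.1
          have e2 : j = ⟨0, hn⟩ := Fin.ext h.2
          rw [e1, e2]
          ring
        · ring
      rw [Finset.sum_congr rfl fun j _ => h2 j]
      by_cases hi : i.val = 0
      · simp only [hi, true_and, if_true]
        rw [Finset.sum_eq_single ⟨0, hn⟩]
        · simp
        · intro j _ hj
          rw [if_neg]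
          intro h
          exact hj (Fin.ext h)
        · simp
      · simp [hi]
    rw [Finset.sum_congr rfl fun i _ => h1 i, Finset.sum_eq_single ⟨0, hn⟩]
    · simp [EuclideanSpace.inner_single_left]
    · intro j _ hj
      rw [if_neg]
      intro h
      exact hj (Fin.ext h)
    · simp

end PrimeSum
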