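import Mathlib

set_option autoImplicit false

/-! # The prime-sum matrix: definitions -/

namespace PrimeSum

open Polynomial

/-- The `n × n` matrix with entry `1` at `(i, j)`, `1 ≤ i, j ≤ n`, if `i + j` is prime, else `0`
(rows and columns are numbered from `0` here). -/
def M (n : ℕ) : Matrix (Fin n) (Fin n) ℚ :=
  Matrix.of fun i j => if ((i.val + 1) + (j.val + 1)).Prime then 1 else 0

/-- the characteristic polynomial of `M n` -/
noncomputable def chi (n : ℕ) : ℚ[X] := (M n).charpoly

/-- `l` enumerates the eigenvalues of `M n` with multiplicity -/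
def IsSpectrum (n : ℕ) (l : Fin n → ℝ) : Prop :=
  (chi n).map (algebraMap ℚ ℝ) = ∏ i, (X - C (l i))

/-- `M n` has alternating spectrum -/
def Alternating (n : ℕ) : Prop := ∃ l : Fin n → ℝ, IsSpectrum n l ∧
  (∀ i, 0 < (-1) ^ i.val * l i) ∧ ∀ i j, i < j → |l j| < |l i|

end PrimeSum
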