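import Pool.Agent.Work.MP_a21be6_nt.Alt

set_option autoImplicit false

/-! # The prime-sum matrix: alternation of the spectrum and irreducibility -/

namespace PrimeSum

open Polynomial Matrix

/-- the enumeration by absolute value -/
def pm {n : ℕ} (k : Fin n) : Fin n :=
  if k.val % 2 = 0 then ⟨k.val / 2, by have := k.2; omega⟩ else
    ⟨n - 1 - k.val / 2, by have := k.2; omega⟩

lemma pm_val {n : ℕ} (k : Fin n) :
    (pm k).val = if k.val % 2 = 0 then k.val / 2 else n - 1 - k.val / 2 := by
  rw [pm]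
  split_ifs <;> rfl

lemma pm_inj (n : ℕ) : Function.Injective (pm (n := n)) := by
  intro i j h
  have h1 := congrArg Fin.val h
  rw [pm_val, pm_val] at h1
  have hi := i.2
  have hj := j.2
  ext
  split_ifs at h1 <;> omega

lemma enum {n : ℕ} (hn : 0 < n) : ∃ l : Fin n → ℝ, IsSpectrum n l ∧
    (∀ i j : Fin n, i.val + 1 = j.val → (-1) ^ j.val * l j ≤ (-1) ^ i.val * l i) ∧
    ∀ i : Fin n, i.val + 1 = n → 0 ≤ (-1) ^ i.val * l i := by
  obtain ⟨m, hs, h1, h2⟩ := sorted_weak hn
  have hb : Function.Bijective (pm (n := n)) := Finite.injective_iff_bijective.1 (pm_inj n)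
  refine ⟨fun k => m (pm k), ?_, ?_, ?_⟩
  · rw [IsSpectrum, hs]
    exact (Equiv.prod_comp (Equiv.ofBijective _ hb) fun i => X - C (m i)).symm
  · intro i j hij
    have hi := i.2
    have hj := j.2
    have e1 := pm_val i
    have e2 := pm_val j
    rcases Nat.even_or_odd i.val with h | h
    · have hi2 : i.val % 2 = 0 := Nat.even_iff.1 h
      have hj2 : j.val % 2 = 1 := by omega
      rw [if_pos hi2] at e1
      rw [if_neg (by omega)] at e2
      have h3 := h1 (pm i) (pm j) (by omega)
      rw [h.neg_one_pow, (Nat.odd_iff.2 hj2).neg_one_pow]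
      linarith
    · have hi2 : i.val % 2 = 1 := Nat.odd_iff.1 h
      have hj2 : j.val % 2 = 0 := by omega
      rw [if_neg (by omega)] at e1
      rw [if_pos hj2] at e2
      have h3 := h2 (pm i) (pm j) (by omega)
      rw [h.neg_one_pow, (Nat.even_iff.2 hj2).neg_one_pow]
      linarith
  · intro i hi
    have e1 := pm_val i
    rcases Nat.even_or_odd i.val with h | h
    · rw [if_pos (Nat.even_iff.1 h)] at e1
      have hi2 := Nat.even_iff.1 h
      have h3 := h1 (pm i) (pm i) (by omega)
      rw [h.neg_one_pow]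
      linarith
    · have hi2 := Nat.odd_iff.1 h
      rw [if_neg (by omega)] at e1
      have h3 := h2 (pm i) (pm i) (by omega)
      rw [h.neg_one_pow]
      linarith

/-- descent along an index -/
lemma chain_le {n : ℕ} {a : Fin n → ℝ} (h : ∀ i j : Fin n, i.val + 1 = j.val → a j ≤ a i) :
    ∀ i j : Fin n, i ≤ j → a j ≤ a i := by
  intro i j hij
  obtain ⟨d, hd⟩ : ∃ d, j.val = i.val + d := ⟨j.val - i.val, by
    have : i.val ≤ j.val := hij
    omega⟩
  induction d generalizing j with
  | zero =>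
    have : j = i := Fin.ext (by omega)
    rw [this]
  | succ d ih =>
    have hj := j.2
    have h1 := ih ⟨i.val + d, by omega⟩ (show i.val ≤ i.val + d by omega) rfl
    exact (h _ j (by simp only; omega)).trans h1

lemma chain_lt {n : ℕ} {a : Fin n → ℝ} (h : ∀ i j : Fin n, i.val + 1 = j.val → a j < a i) :
    ∀ i j : Fin n, i < j → a j < a i := by
  intro i j hij
  have hj := j.2
  have hij' : i.val < j.val := hij
  have h1 := chain_le (fun i j h' => (h i j h').le) i ⟨j.val - 1, by omega⟩
    (show i.val ≤ j.val - 1 by omega)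
  exact (h _ j (by simp only; omega)).trans_le h1

lemma abs_eq_of {k : ℕ} {x : ℝ} (h : 0 ≤ (-1) ^ k * x) : |x| = (-1) ^ k * x := by
  rw [← abs_of_nonneg h, abs_mul, abs_pow, abs_neg, abs_one, one_pow, one_mul]

/-- **the weak alternation** -/
theorem weak_alt {n : ℕ} (hn : 0 < n) : ∃ l : Fin n → ℝ, IsSpectrum n l ∧
    (∀ i, 0 ≤ (-1) ^ i.val * l i) ∧ ∀ i j, i < j → |l j| ≤ |l i| := by
  obtain ⟨l, hs, h1, h2⟩ := enum hn
  have h3 := chain_le (a := fun i : Fin n => (-1) ^ i.val * l i) h1
  have h4 : ∀ i : Fin n, 0 ≤ (-1) ^ i.val * l i := fun i =>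
    (h2 ⟨n - 1, by omega⟩ (by simp only; omega)).trans (h3 i ⟨n - 1, by omega⟩
      (show i.val ≤ n - 1 by have := i.2; omega))
  refine ⟨l, hs, h4, fun i j hij => ?_⟩
  rw [abs_eq_of (h4 i), abs_eq_of (h4 j)]
  exact h3 i j hij.le

lemma root_iff {n : ℕ} {l : Fin n → ℝ} (h : IsSpectrum n l) (t : ℝ) :
    ((chi n).map (algebraMap ℚ ℝ)).eval t = 0 ↔ ∃ i, l i = t := by
  rw [IsSpectrum] at h
  rw [h, eval_prod, Finset.prod_eq_zero_iff]
  constructor
  · rintro ⟨i, -, hi⟩
    exact ⟨i, by simp at hi; linarith⟩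
  · rintro ⟨i, hi⟩
    exact ⟨i, Finset.mem_univ _, by simp [hi]⟩

lemma comp_eval (n : ℕ) (t : ℝ) : (((chi n).comp (-X)).map (algebraMap ℚ ℝ)).eval t =
    ((chi n).map (algebraMap ℚ ℝ)).eval (-t) := by
  rw [Polynomial.map_comp, Polynomial.map_neg, map_X, eval_comp]
  simp

/-- coprimality in terms of the eigenvalues -/
lemma coprime_iff {n : ℕ} {l : Fin n → ℝ} (h : IsSpectrum n l) :
    IsCoprime (chi n) ((chi n).comp (-X)) ↔ ∀ i j, l i ≠ - l j := by
  rw [← Polynomial.isCoprime_map (algebraMap ℚ ℝ)]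
  constructor
  · rintro ⟨u, v, huv⟩ i j hij
    have h1 := congrArg (Polynomial.eval (l i)) huv
    rw [eval_add, eval_mul, eval_mul, comp_eval, (root_iff h (l i)).2 ⟨i, rfl⟩,
      (root_iff h (-l i)).2 ⟨j, by rw [hij]; ring⟩] at h1
    simp at h1
  · intro hne
    have h' := h
    rw [IsSpectrum] at h'
    rw [h']
    refine IsCoprime.prod_left fun i _ => ?_
    rw [(prime_X_sub_C (l i)).irreducible.coprime_iff_not_dvd, dvd_iff_isRoot, IsRoot.def,
      comp_eval, root_iff h]
    rintro ⟨j, hj⟩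
    exact hne i j (by rw [hj]; ring)

/-- **the exact criterion** -/
theorem alt_iff {n : ℕ} (hn : 0 < n) :
    Alternating n ↔ IsCoprime (chi n) ((chi n).comp (-X)) := by
  constructor
  · rintro ⟨l, hs, h1, h2⟩
    rw [coprime_iff hs]
    intro i j hij
    have h3 : |l i| = |l j| := by rw [hij, abs_neg]
    have h4 : i = j := by
      rcases lt_trichotomy i j with h | h | h
      · have := h2 i j h
        linarith
      · exact h
      · have := h2 j i h
        linarith
    rw [h4] at hij
    have h5 : l j = 0 := by linarith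
    have h6 := h1 j
    rw [h5, mul_zero] at h6
    exact lt_irrefl _ h6
  · intro hc
    obtain ⟨l, hs, h1, h2⟩ := enum hn
    rw [coprime_iff hs] at hc
    have h3 : ∀ i j : Fin n, i.val + 1 = j.val → (-1) ^ j.val * l j < (-1) ^ i.val * l i := by
      intro i j hij
      refine lt_of_le_of_ne (h1 i j hij) fun h => hc i j ?_
      rw [← hij, pow_succ] at h
      have h5 : ((-1 : ℝ)) ^ i.val ≠ 0 := by positivity
      have h6 : (-1 : ℝ) ^ i.val * (l i + l j) = 0 := by linarith
      rcases mul_eq_zero.1 h6 with h7 | h7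
      · exact absurd h7 h5
      · linarith
    have h0 : ∀ i : Fin n, i.val + 1 = n → 0 < (-1) ^ i.val * l i := by
      intro i hi
      refine lt_of_le_of_ne (h2 i hi) fun h => hc i i ?_
      have h5 : ((-1 : ℝ)) ^ i.val ≠ 0 := by positivity
      rcases mul_eq_zero.1 h.symm with h7 | h7
      · exact absurd h7 h5
      · rw [h7, neg_zero]
    have h4 : ∀ i : Fin n, 0 < (-1) ^ i.val * l i := fun i =>
      (h0 ⟨n - 1, by omega⟩ (by simp only; omega)).trans_le
        (chain_le (a := fun i : Fin n => (-1) ^ i.val * l i) h1 i ⟨n - 1, by omega⟩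
        (show i.val ≤ n - 1 by have := i.2; omega))
    refine ⟨l, hs, h4, fun i j hij => ?_⟩
    rw [abs_eq_of (h4 i).le, abs_eq_of (h4 j).le]
    exact chain_lt (a := fun i : Fin n => (-1) ^ i.val * l i) h3 i j hij

lemma trace_M {n : ℕ} (hn : 0 < n) : (M n).trace = 1 := by
  rw [Matrix.trace, Finset.sum_eq_single ⟨0, hn⟩]
  · simp [M, Nat.prime_two]
  · intro i _ hi
    have hi0 : i.val ≠ 0 := fun h => hi (Fin.ext h)
    simp only [M, Matrix.diag_apply, Matrix.of_apply]
    rw [if_neg]
    intro hp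
    have := (hp.even_iff).1 ⟨i.val + 1, rfl⟩
    omega
  · simp

/-- **irreducibility implies alternation** -/
theorem alt_of_irreducible {n : ℕ} (hn : 0 < n) (h : Irreducible (chi n)) : Alternating n := by
  rw [alt_iff hn]
  by_cases h1 : chi n ∣ (chi n).comp (-X)
  swap
  · exact (h.coprime_iff_not_dvd).2 h1
  · exfalso
    have hmon : (chi n).Monic := Matrix.charpoly_monic _
    have hdeg : (chi n).natDegree = n := by
      rw [chi, Matrix.charpoly_natDegree_eq_dim, Fintype.card_fin]
    have hdeg' : ((chi n).comp (-X)).natDegree = n := by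
      rw [natDegree_comp, natDegree_neg, natDegree_X, hdeg, mul_one]
    obtain ⟨r, hr⟩ := h1
    have hq0 : (chi n).comp (-X) ≠ 0 := by
      intro h0
      rw [h0, natDegree_zero] at hdeg'
      omega
    have hr0 : r ≠ 0 := fun h0 => hq0 (by rw [hr, h0, mul_zero])
    have hrd : r.natDegree = 0 := by
      have := congrArg natDegree hr
      rw [natDegree_mul hmon.ne_zero hr0, hdeg, hdeg'] at this
      omega
    obtain ⟨c, hc⟩ := natDegree_eq_zero.1 hrd
    have hco : ∀ k, ((chi n).comp (-X)).coeff k = (-1) ^ k * (chi n).coeff k := by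
      intro k
      rw [show (-X : ℚ[X]) = C (-1) * X by simp, Polynomial.comp_C_mul_X_coeff, mul_comm]
    have e1 := hco n
    have e2 := hco (n - 1)
    rw [hr, ← hc, mul_comm, coeff_C_mul] at e1 e2
    have e3 : (chi n).coeff n = 1 := by
      have := hmon.coeff_natDegree
      rwa [hdeg] at this
    have e4 : (chi n).coeff (n - 1) = -1 := by
      have : Nonempty (Fin n) := ⟨⟨0, hn⟩⟩
      have h5 := Matrix.trace_eq_neg_charpoly_coeff (M n)
      rw [trace_M hn, Fintype.card_fin] at h5
      rw [chi]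
      linarith
    rw [e3, mul_one] at e1
    rw [e4, e1] at e2
    obtain ⟨k, rfl⟩ : ∃ k, n = k + 1 := ⟨n - 1, by omega⟩
    rw [Nat.add_sub_cancel, pow_succ] at e2
    have h6 : ((-1 : ℚ)) ^ k ≠ 0 := by positivity
    apply h6
    linarith

end PrimeSum
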